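import Mathlib
import Pool.Agent.K1H2.MO.Field

/-!
# Multiplicity one for twisted periods

For every finite field `F`, quadratic extension `E`, every `n`, every irreducible complex
representation of `GL_{2n}(F)` and every character `χ` of `Eˣ`, the space of `(GL_n(E), χ ∘ det)`
equivariant functionals has dimension at most one.
-/

namespace Pool.Agent.Results.MP_ee6fb2_al.MultOne

open Module

section

variable {F E : Type} [Field F] [Field E] [Algebra F E] {n : ℕ}

/-- In the `F`-basis `B` of `Eⁿ`, the matrix `g` over `F` is that of the `F`-linear map `x ↦ h x`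
of `Eⁿ`, where `h` is a matrix over `E`. -/
def Represents (B : Basis (Fin (2 * n)) F (Fin n → E)) (g : GL (Fin (2 * n)) F)
    (h : GL (Fin n) E) : Prop :=
  ∀ x : Fin n → E, Matrix.toLin B B g.1 x = Matrix.mulVec h.1 x

variable {V : Type} [AddCommGroup V] [Module ℂ V]

/-- The linear functional `ℓ` satisfies `ℓ (π(h) v) = χ(det h) ℓ(v)` for all `h` in `GL_n(E)`,
where `GL_n(E)` is viewed in `GL_{2n}(F)` through the basis `B`. -/
def IsEquivariant (B : Basis (Fin (2 * n)) F (Fin n → E))
    (π : Representation ℂ (GL (Fin (2 * n)) F) V) (χ : Eˣ →* ℂˣ) (ℓ : V →ₗ[ℂ] ℂ) : Prop :=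
  ∀ (h : GL (Fin n) E) (g : GL (Fin (2 * n)) F), Represents B g h →
    ∀ v : V, ℓ (π g v) = (χ (Matrix.GeneralLinearGroup.det h) : ℂ) * ℓ v

variable (B : Basis (Fin (2 * n)) F (Fin n → E))
    (π : Representation ℂ (GL (Fin (2 * n)) F) V) (χ : Eˣ →* ℂˣ)

theorem isEquivariant_add {a b : V →ₗ[ℂ] ℂ} (ha : IsEquivariant B π χ a)
    (hb : IsEquivariant B π χ b) : IsEquivariant B π χ (a + b) := by
  intro h g hg v
  rw [LinearMap.add_apply, LinearMap.add_apply, ha h g hg v, hb h g hg v, mul_add]

theorem isEquivariant_zero : IsEquivariant B π χ 0 := by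
  intro h g hg v
  simp

theorem isEquivariant_smul (c : ℂ) {a : V →ₗ[ℂ] ℂ} (ha : IsEquivariant B π χ a) :
    IsEquivariant B π χ (c • a) := by
  intro h g hg v
  rw [LinearMap.smul_apply, LinearMap.smul_apply, ha h g hg v, smul_eq_mul, smul_eq_mul]
  ring

/-- The space `Hom_H(π, χ ∘ det)` for `H = GL_n(E)`. -/
def Equivariant : Submodule ℂ (V →ₗ[ℂ] ℂ) where
  carrier := {ℓ | IsEquivariant B π χ ℓ}
  add_mem' := isEquivariant_add B π χ
  zero_mem' := isEquivariant_zero B π χ
  smul_mem' := fun c _ => isEquivariant_smul B π χ c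

/-- The embedding of `GL_n(E)` in `GL_{2n}(F)` given by the basis `B`. -/
noncomputable def emb : GL (Fin n) E →* GL (Fin (2 * n)) F :=
  Units.map
    { toFun := fun h => LinearMap.toMatrix B B ((Matrix.toLin' h).restrictScalars F)
      map_one' := by
        rw [Matrix.toLin'_one]
        exact LinearMap.toMatrix_id B
      map_mul' := by
        intro h k
        rw [Matrix.toLin'_mul, ← LinearMap.toMatrix_mul]
        rfl }

theorem emb_represents (h : GL (Fin n) E) : Represents B (emb B h) h := by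
  intro x
  change Matrix.toLin B B (LinearMap.toMatrix B B ((Matrix.toLin' h.1).restrictScalars F)) x = _
  rw [Matrix.toLin_toMatrix]
  rfl

end

theorem result (F E : Type) [Field F] [Finite F] [Field E] [Algebra F E]
    (hE : finrank F E = 2) (n : ℕ) (B : Basis (Fin (2 * n)) F (Fin n → E))
    (V : Type) [AddCommGroup V] [Module ℂ V] [FiniteDimensional ℂ V]
    (π : Representation ℂ (GL (Fin (2 * n)) F) V) (hπ : π.IsIrreducible) (χ : Eˣ →* ℂˣ) :
    finrank ℂ (Equivariant B π χ) ≤ 1 := by
  let φ : GL (Fin (2 * n)) F ≃* (Module.End F (Fin n → E))ˣ :=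
    Units.mapEquiv (Matrix.toLinAlgEquiv B).toMulEquiv
  have key := Pool.Agent.K1H2.MO.mult_one_gen hE φ (emb B) (by
    intro h
    change Matrix.toLin B B (LinearMap.toMatrix B B ((Matrix.toLin' h.1).restrictScalars F)) = _
    rw [Matrix.toLin_toMatrix]
    rfl) π hπ χ
  refine le_trans (Submodule.finrank_mono ?_) key
  intro ℓ hℓ h v
  exact hℓ h (emb B h) (emb_represents B h) v

end Pool.Agent.Results.MP_ee6fb2_al.MultOne
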